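import Mathlib

/-!
# Approximation of an obstruction at a rational point by algebraically independent p-adic numbers
-/

set_option autoImplicit false
set_option linter.all false

open Polynomial Filter Topology

namespace Pool.Agent.Zk78.FG

variable {n : ℕ} {p : ℕ} [Fact p.Prime]

theorem aeval_cont (g : MvPolynomial (Fin n) ℚ) :
    Continuous fun τ : Fin n → ℚ_[p] => MvPolynomial.aeval τ g := by
  have h : (fun τ : Fin n → ℚ_[p] => MvPolynomial.aeval τ g) =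
      fun τ => MvPolynomial.eval τ (MvPolynomial.map (algebraMap ℚ ℚ_[p]) g) := by
    funext τ
    rw [MvPolynomial.eval_map, MvPolynomial.aeval_def]
  rw [h]
  exact MvPolynomial.continuous_eval _

/-- the polynomial in one variable on a line -/
noncomputable def line {R : Type*} [CommRing R] [Algebra ℚ R] (a v : Fin n → R)
    (g : MvPolynomial (Fin n) ℚ) : R[X] :=
  MvPolynomial.aeval (fun i => C (a i) + X * C (v i)) g

theorem line_eval {R : Type*} [CommRing R] [Algebra ℚ R] (a v : Fin n → R)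
    (g : MvPolynomial (Fin n) ℚ) (s : R) :
    (line a v g).eval s = MvPolynomial.aeval (fun i => a i + s * v i) g := by
  unfold line
  have h := MvPolynomial.comp_aeval_apply (fun i => C (a i) + X * C (v i))
    ((Polynomial.aeval s : R[X] →ₐ[R] R).restrictScalars ℚ) g
  simp only [AlgHom.restrictScalars_apply, Polynomial.coe_aeval_eq_eval] at h
  rw [h]
  congr 2
  funext i
  simp
  exact mul_comm _ _

theorem exists_dir (g : MvPolynomial (Fin n) ℚ) (hg : g ≠ 0) (a : Fin n → ℚ) :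
    ∃ v : Fin n → ℚ, MvPolynomial.eval (fun i => a i + v i) g ≠ 0 := by
  by_contra h
  push Not at h
  apply hg
  apply MvPolynomial.funext
  intro x
  have := h (fun i => x i - a i)
  simpa using this

theorem exists_ne_padic (g : MvPolynomial (Fin n) ℚ) (hg : g ≠ 0) (τ : Fin n → ℚ_[p]) :
    ∃ v : Fin n → ℚ_[p], MvPolynomial.aeval (fun i => τ i + v i) g ≠ 0 := by
  have hg' : MvPolynomial.map (algebraMap ℚ ℚ_[p]) g ≠ 0 := by
    intro h
    apply hg
    apply MvPolynomial.map_injective (algebraMap ℚ ℚ_[p]) (algebraMap ℚ ℚ_[p]).injective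
    simpa using h
  by_contra h
  push Not at h
  apply hg'
  apply MvPolynomial.funext
  intro x
  have h1 := h (fun i => x i - τ i)
  rw [MvPolynomial.aeval_def, MvPolynomial.eval₂_eq_eval_map] at h1
  simpa using h1

open Classical in
theorem dense_ne (g : MvPolynomial (Fin n) ℚ) (hg : g ≠ 0) :
    Dense {τ : Fin n → ℚ_[p] | MvPolynomial.aeval τ g ≠ 0} := by
  intro τ
  obtain ⟨v, hv⟩ := exists_ne_padic (p := p) g hg τ
  have hne : line τ v g ≠ 0 := by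
    intro h
    have := line_eval τ v g 1
    rw [h] at this
    apply hv
    simpa using this.symm
  rw [mem_closure_iff_nhds]
  intro U hU
  have hc : Tendsto (fun s : ℚ_[p] => fun i => τ i + s * v i) (𝓝[≠] 0) (𝓝 τ) := by
    have h1 : Continuous (fun s : ℚ_[p] => fun i => τ i + s * v i) := by fun_prop
    have h2 := h1.tendsto 0
    simp only [zero_mul, add_zero] at h2
    exact h2.mono_left nhdsWithin_le_nhds
  have h3 : ∀ᶠ s in 𝓝[≠] (0 : ℚ_[p]), (fun i => τ i + s * v i) ∈ U := hc hU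
  have h4 : ∀ᶠ s in 𝓝[≠] (0 : ℚ_[p]), (line τ v g).eval s ≠ 0 := by
    have hfin : (((line τ v g).roots.toFinset : Set ℚ_[p]) \ {0}).Finite :=
      Set.Finite.subset (Finset.finite_toSet _) Set.diff_subset
    have h5 : (((line τ v g).roots.toFinset : Set ℚ_[p]) \ {0})ᶜ ∈ 𝓝 (0 : ℚ_[p]) := by
      apply hfin.isClosed.isOpen_compl.mem_nhds
      simp
    have h6 := nhdsWithin_le_nhds (s := {(0 : ℚ_[p])}ᶜ) h5
    filter_upwards [h6, self_mem_nhdsWithin] with s hs hs0 h0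
    apply hs
    refine ⟨?_, hs0⟩
    simp only [Finset.mem_coe, Multiset.mem_toFinset]
    exact (Polynomial.mem_roots hne).2 h0
  obtain ⟨s, hs1, hs2⟩ := (h3.and h4).exists
  refine ⟨_, hs1, ?_⟩
  rw [line_eval] at hs2
  exact hs2

theorem dense_algInd : Dense {τ : Fin n → ℚ_[p] | AlgebraicIndependent ℚ τ} := by
  have h : {τ : Fin n → ℚ_[p] | AlgebraicIndependent ℚ τ} =
      ⋂ g : {g : MvPolynomial (Fin n) ℚ // g ≠ 0}, {τ | MvPolynomial.aeval τ g.1 ≠ 0} := by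
    ext τ
    simp only [Set.mem_setOf_eq, Set.mem_iInter]
    rw [algebraicIndependent_iff]
    constructor
    · intro h g h0
      exact g.2 (h g.1 h0)
    · intro h g h0
      by_contra hg
      exact h ⟨g, hg⟩ h0
  rw [h]
  have hcount : Countable (MvPolynomial (Fin n) ℚ) := by
    have h1 := MvPolynomial.cardinalMk_le_max (σ := Fin n) (R := ℚ)
    rw [← Cardinal.mk_le_aleph0_iff]
    refine h1.trans ?_
    simp
  apply dense_iInter_of_isOpen
  · intro g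
    exact isOpen_ne_fun (aeval_cont g.1) continuous_const
  · intro g
    exact dense_ne g.1 g.2

/-- values of the line polynomials at rational points, in `ℚ_p` -/
theorem line_cast (a v : Fin n → ℚ) (g : MvPolynomial (Fin n) ℚ) (s : ℚ_[p]) :
    Polynomial.aeval s (line a v g) =
      MvPolynomial.aeval (fun i => algebraMap ℚ ℚ_[p] (a i) + s * algebraMap ℚ ℚ_[p] (v i)) g := by
  unfold line
  rw [MvPolynomial.comp_aeval_apply]
  congr 2
  funext i
  simp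
  exact mul_comm _ _

/-- good tuples near `a` -/
theorem near (a : Fin n → ℚ) (P Q : MvPolynomial (Fin n) ℚ) (hP : P ≠ 0) (hQ : Q ≠ 0) (l : ℕ)
    (hl : 1 ≤ l) : ∃ c₀ : ℚ, c₀ ≠ 0 ∧ ∀ (p : ℕ) [Fact p.Prime] (ε : ℝ), 0 < ε →
      ∃ (τ : Fin n → ℚ_[p]) (u w : ℚ_[p]), AlgebraicIndependent ℚ τ ∧
        (∀ i, ‖τ i - algebraMap ℚ ℚ_[p] (a i)‖ < ε) ∧ ‖u - 1‖ < ε ∧ w ≠ 0 ∧
        MvPolynomial.aeval τ P / MvPolynomial.aeval τ Q = algebraMap ℚ ℚ_[p] c₀ * u * w ^ l := by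
  obtain ⟨v, hv⟩ := exists_dir (P * Q) (mul_ne_zero hP hQ) a
  rw [map_mul] at hv
  have hv1 := left_ne_zero_of_mul hv
  have hv2 := right_ne_zero_of_mul hv
  have hne : ∀ g : MvPolynomial (Fin n) ℚ, MvPolynomial.eval (fun i => a i + v i) g ≠ 0 →
      line a v g ≠ 0 := by
    intro g hg h
    have h1 := line_eval a v g 1
    rw [h] at h1
    apply hg
    rw [← MvPolynomial.coe_aeval_eq_eval]
    simpa using h1.symm
  obtain ⟨P1, hP1, hP1'⟩ := exists_eq_pow_rootMultiplicity_mul_and_not_dvd _ (hne P hv1) 0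
  obtain ⟨Q1, hQ1, hQ1'⟩ := exists_eq_pow_rootMultiplicity_mul_and_not_dvd _ (hne Q hv2) 0
  set d := rootMultiplicity 0 (line a v P) with hd
  set e := rootMultiplicity 0 (line a v Q) with he
  rw [dvd_iff_isRoot, IsRoot.def] at hP1' hQ1'
  rw [C_0, sub_zero] at hP1 hQ1
  refine ⟨P1.eval 0 / Q1.eval 0, div_ne_zero hP1' hQ1', ?_⟩
  intro p _ ε hε
  set c : ℚ_[p] := algebraMap ℚ ℚ_[p] (P1.eval 0 / Q1.eval 0) with hc
  have hc0 : c ≠ 0 := by
    rw [hc]
    exact (_root_.map_ne_zero _).2 (div_ne_zero hP1' hQ1')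
  have hc' : c = Polynomial.aeval (0 : ℚ_[p]) P1 / Polynomial.aeval (0 : ℚ_[p]) Q1 := by
    rw [hc, map_div₀]
    congr 1
    · rw [← Polynomial.coe_aeval_eq_eval, ← Polynomial.aeval_algebraMap_apply, map_zero]
    · rw [← Polynomial.coe_aeval_eq_eval, ← Polynomial.aeval_algebraMap_apply, map_zero]
  have hQ10 : Polynomial.aeval (0 : ℚ_[p]) Q1 ≠ 0 := by
    intro h
    rw [h, div_zero] at hc'
    exact hc0 hc'
  have hP10 : Polynomial.aeval (0 : ℚ_[p]) P1 ≠ 0 := by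
    intro h
    rw [h, zero_div] at hc'
    exact hc0 hc'
  -- the small parameters
  have hp0 : (p : ℚ_[p]) ≠ 0 := by
    exact_mod_cast (Fact.out : p.Prime).ne_zero
  have hplt : ‖(p : ℚ_[p])‖ < 1 := by
    rw [Padic.norm_p]
    apply inv_lt_one_of_one_lt₀
    exact_mod_cast (Fact.out : p.Prime).one_lt
  have hlt : ‖(p : ℚ_[p]) ^ l‖ < 1 := by
    rw [norm_pow]
    exact pow_lt_one₀ (norm_nonneg _) hplt (by omega)
  have hs : Tendsto (fun j : ℕ => ((p : ℚ_[p]) ^ l) ^ j) atTop (𝓝 0) :=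
    tendsto_pow_atTop_nhds_zero_of_norm_lt_one hlt
  have hPc : Continuous fun s : ℚ_[p] => Polynomial.aeval s P1 := Polynomial.continuous_aeval P1
  have hQc : Continuous fun s : ℚ_[p] => Polynomial.aeval s Q1 := Polynomial.continuous_aeval Q1
  have hu : Tendsto (fun j : ℕ => Polynomial.aeval (((p : ℚ_[p]) ^ l) ^ j) P1 /
      Polynomial.aeval (((p : ℚ_[p]) ^ l) ^ j) Q1 / c) atTop (𝓝 1) := by
    have h1 : Tendsto (fun j : ℕ => Polynomial.aeval (((p : ℚ_[p]) ^ l) ^ j) P1 /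
      Polynomial.aeval (((p : ℚ_[p]) ^ l) ^ j) Q1 / c) atTop
        (𝓝 (Polynomial.aeval (0 : ℚ_[p]) P1 / Polynomial.aeval (0 : ℚ_[p]) Q1 / c)) :=
      (((hPc.tendsto 0).comp hs).div ((hQc.tendsto 0).comp hs) hQ10).div_const c
    rwa [← hc', div_self hc0] at h1
  have hev1 := (hPc.tendsto 0).comp hs |>.eventually_ne hP10
  have hev2 := (hQc.tendsto 0).comp hs |>.eventually_ne hQ10
  have hev3 : ∀ᶠ j : ℕ in atTop, ‖Polynomial.aeval (((p : ℚ_[p]) ^ l) ^ j) P1 /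
      Polynomial.aeval (((p : ℚ_[p]) ^ l) ^ j) Q1 / c - 1‖ < ε := by
    have := (Metric.tendsto_nhds.1 hu) ε hε
    simpa [dist_eq_norm] using this
  have hev4 : ∀ᶠ j : ℕ in atTop, ∀ i, ‖((p : ℚ_[p]) ^ l) ^ j * algebraMap ℚ ℚ_[p] (v i)‖ < ε := by
    rw [eventually_all]
    intro i
    have h1 : Tendsto (fun j : ℕ => ((p : ℚ_[p]) ^ l) ^ j * algebraMap ℚ ℚ_[p] (v i)) atTop
        (𝓝 0) := by
      have := hs.mul_const (algebraMap ℚ ℚ_[p] (v i))
      rwa [zero_mul] at this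
    have := (Metric.tendsto_nhds.1 h1) ε hε
    simpa [dist_eq_norm] using this
  obtain ⟨j, hj1, hj2, hj3, hj4⟩ := (hev1.and (hev2.and (hev3.and hev4))).exists
  simp only [Function.comp_apply] at hj1 hj2
  set s : ℚ_[p] := ((p : ℚ_[p]) ^ l) ^ j with hsdef
  have hs0 : s ≠ 0 := pow_ne_zero _ (pow_ne_zero _ hp0)
  set τ₀ : Fin n → ℚ_[p] := fun i => algebraMap ℚ ℚ_[p] (a i) + s * algebraMap ℚ ℚ_[p] (v i)
    with hτ₀
  have hPτ : MvPolynomial.aeval τ₀ P = s ^ d * Polynomial.aeval s P1 := by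
    rw [hτ₀, ← line_cast, hP1]
    simp
  have hQτ : MvPolynomial.aeval τ₀ Q = s ^ e * Polynomial.aeval s Q1 := by
    rw [hτ₀, ← line_cast, hQ1]
    simp
  set w : ℚ_[p] := ((p : ℚ_[p]) ^ j) ^ d / ((p : ℚ_[p]) ^ j) ^ e with hw
  have hw0 : w ≠ 0 := div_ne_zero (pow_ne_zero _ (pow_ne_zero _ hp0))
    (pow_ne_zero _ (pow_ne_zero _ hp0))
  have hwl : w ^ l = s ^ d / s ^ e := by
    rw [hw, div_pow, hsdef]
    congr 1
    · ring
    · ring
  have hQ0 : MvPolynomial.aeval τ₀ Q ≠ 0 := by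
    rw [hQτ]
    exact mul_ne_zero (pow_ne_zero _ hs0) hj2
  let U : (Fin n → ℚ_[p]) → ℚ_[p] := fun τ =>
    MvPolynomial.aeval τ P / MvPolynomial.aeval τ Q / (c * w ^ l)
  have hU0 : U τ₀ = Polynomial.aeval s P1 / Polynomial.aeval s Q1 / c := by
    simp only [U]
    rw [hPτ, hQτ, hwl]
    field_simp
  have hUc : ContinuousAt U τ₀ :=
    (((aeval_cont P).continuousAt).div ((aeval_cont Q).continuousAt) hQ0).div_const _
  have hN1 : ∀ᶠ τ in 𝓝 τ₀, ‖U τ - 1‖ < ε := by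
    have h1 : Tendsto (fun τ => ‖U τ - 1‖) (𝓝 τ₀) (𝓝 ‖U τ₀ - 1‖) :=
      (hUc.sub continuousAt_const).norm
    rw [hU0] at h1
    exact h1.eventually_lt_const hj3
  have hN2 : ∀ᶠ τ in 𝓝 τ₀, ∀ i, ‖τ i - algebraMap ℚ ℚ_[p] (a i)‖ < ε := by
    rw [eventually_all]
    intro i
    have h1 : Tendsto (fun τ : Fin n → ℚ_[p] => ‖τ i - algebraMap ℚ ℚ_[p] (a i)‖) (𝓝 τ₀)
        (𝓝 ‖τ₀ i - algebraMap ℚ ℚ_[p] (a i)‖) := by
      have : Continuous fun τ : Fin n → ℚ_[p] => ‖τ i - algebraMap ℚ ℚ_[p] (a i)‖ := by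
        fun_prop
      exact this.tendsto _
    refine h1.eventually_lt_const ?_
    have h2 : τ₀ i - algebraMap ℚ ℚ_[p] (a i) = s * algebraMap ℚ ℚ_[p] (v i) := by
      simp [hτ₀]
    rw [h2]
    exact hj4 i
  have hne' := mem_closure_iff_nhds.1 (dense_algInd (n := n) (p := p) τ₀) _ (hN1.and hN2)
  obtain ⟨τ, hτ, hτ'⟩ := hne'
  refine ⟨τ, U τ, w, hτ', hτ.2, hτ.1, hw0, ?_⟩
  simp only [U]
  have h5 : c * w ^ l ≠ 0 := mul_ne_zero hc0 (pow_ne_zero _ hw0)
  field_simp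

/-- the value of `f` at `(τ, x)` -/
noncomputable def FV (f : Polynomial (MvPolynomial (Fin n) ℚ)) (τ : Fin n → ℚ_[p]) (x : ℚ_[p]) :
    ℚ_[p] := ∑ i ∈ Finset.range (f.natDegree + 1), MvPolynomial.aeval τ (f.coeff i) * x ^ i

theorem FV_eq (f : Polynomial (MvPolynomial (Fin n) ℚ)) (τ : Fin n → ℚ_[p]) (x : ℚ_[p]) :
    (f.map (MvPolynomial.aeval τ : MvPolynomial (Fin n) ℚ →ₐ[ℚ] ℚ_[p]).toRingHom).eval x =
      FV f τ x := by
  rw [Polynomial.eval_map, Polynomial.eval₂_eq_sum_range]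
  rfl

theorem FV_cont (f : Polynomial (MvPolynomial (Fin n) ℚ)) :
    Continuous fun q : (Fin n → ℚ_[p]) × ℚ_[p] => FV f q.1 q.2 := by
  unfold FV
  apply continuous_finset_sum
  intro i _
  exact ((aeval_cont (f.coeff i)).comp continuous_fst).mul (continuous_snd.pow i)

/-- roots are bounded -/
theorem root_bound (f : Polynomial (MvPolynomial (Fin n) ℚ)) (hf : f.Monic) (τ : Fin n → ℚ_[p])
    (x : ℚ_[p]) (h : FV f τ x = 0) (M : ℝ)
    (hM : ∑ i ∈ Finset.range f.natDegree, ‖MvPolynomial.aeval τ (f.coeff i)‖ ≤ M) (hM1 : 1 ≤ M) :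
    ‖x‖ ≤ M := by
  unfold FV at h
  rw [Finset.sum_range_succ, hf.coeff_natDegree, map_one, one_mul] at h
  by_contra hx
  push Not at hx
  have hx1 : 1 < ‖x‖ := lt_of_le_of_lt hM1 hx
  have h1 : x ^ f.natDegree =
      -∑ i ∈ Finset.range f.natDegree, MvPolynomial.aeval τ (f.coeff i) * x ^ i := by
    linear_combination h
  rcases Nat.eq_zero_or_pos f.natDegree with h0 | h0
  · rw [h0] at h1
    simp at h1
  have h2 : ‖x‖ ^ f.natDegree ≤ M * ‖x‖ ^ (f.natDegree - 1) := by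
    rw [← norm_pow, h1, norm_neg]
    refine (norm_sum_le _ _).trans ?_
    refine le_trans ?_ (mul_le_mul_of_nonneg_right hM (by positivity))
    rw [Finset.sum_mul]
    apply Finset.sum_le_sum
    intro i hi
    rw [norm_mul, norm_pow]
    apply mul_le_mul_of_nonneg_left _ (norm_nonneg _)
    apply pow_le_pow_right₀ hx1.le
    have := Finset.mem_range.1 hi
    omega
  have h3 : ‖x‖ ^ f.natDegree = ‖x‖ * ‖x‖ ^ (f.natDegree - 1) := by
    rw [← pow_succ']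
    congr 1
    omega
  rw [h3] at h2
  have h4 : 0 < ‖x‖ ^ (f.natDegree - 1) := by positivity
  have h5 := le_of_mul_le_mul_right h2 h4
  linarith

attribute [irreducible] FV

theorem FV_tendsto (f : Polynomial (MvPolynomial (Fin n) ℚ)) (τ : ℕ → Fin n → ℚ_[p])
    (X : ℕ → ℚ_[p]) (A : Fin n → ℚ_[p]) (X₀ : ℚ_[p])
    (h : Tendsto (fun j => (τ j, X j)) atTop (𝓝 (A, X₀))) :
    Tendsto (fun j => FV f (τ j) (X j)) atTop (𝓝 (FV f A X₀)) := by
  have h2 : Tendsto (fun q : (Fin n → ℚ_[p]) × ℚ_[p] => FV f q.1 q.2) (𝓝 (A, X₀))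
      (𝓝 (FV f A X₀)) := (FV_cont f).tendsto (A, X₀)
  exact h2.comp h

theorem map_hom_eq (a : Fin n → ℚ) : (algebraMap ℚ ℚ_[p]).comp (MvPolynomial.eval a) =
    (MvPolynomial.aeval (fun i => algebraMap ℚ ℚ_[p] (a i)) :
      MvPolynomial (Fin n) ℚ →ₐ[ℚ] ℚ_[p]).toRingHom := by
  apply MvPolynomial.ringHom_ext
  · intro r
    simp
  · intro i
    simp

theorem app2_core (f : Polynomial (MvPolynomial (Fin n) ℚ)) (hf : f.Monic)
    (a : Fin n → ℚ) (b : ℚ) (l : ℕ) (hl : 1 ≤ l)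
    (P Q : MvPolynomial (Fin n) ℚ) (hP : P ≠ 0) (hQ : Q ≠ 0) :
    ∃ c₀ : ℚ, c₀ ≠ 0 ∧ ∀ (p : ℕ) [Fact p.Prime],
      (∀ z : ℚ_[p], (f.map ((algebraMap ℚ ℚ_[p]).comp (MvPolynomial.eval a))).eval
        (algebraMap ℚ ℚ_[p] b + algebraMap ℚ ℚ_[p] c₀ * z ^ l) ≠ 0) →
      ∃ τ : Fin n → ℚ_[p], AlgebraicIndependent ℚ τ ∧ ∀ z : ℚ_[p],
        (f.map (MvPolynomial.aeval τ : MvPolynomial (Fin n) ℚ →ₐ[ℚ] ℚ_[p]).toRingHom).eval
          (algebraMap ℚ ℚ_[p] b + MvPolynomial.aeval τ P / MvPolynomial.aeval τ Q * z ^ l) ≠ 0 := by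
  obtain ⟨c₀, hc₀, H⟩ := near a P Q hP hQ l hl
  refine ⟨c₀, hc₀, ?_⟩
  intro p _ hz
  by_contra hcon
  push Not at hcon
  have hε : ∀ j : ℕ, (0 : ℝ) < 1 / ((j : ℝ) + 2) := fun j => by positivity
  choose τ u w hτ hτa hu hw hR using fun j : ℕ => H p (1 / ((j : ℝ) + 2)) (hε j)
  choose z hzz using fun j => hcon (τ j) (hτ j)
  set A : Fin n → ℚ_[p] := fun i => algebraMap ℚ ℚ_[p] (a i) with hA
  set c : ℚ_[p] := algebraMap ℚ ℚ_[p] c₀ with hc
  have hc0 : c ≠ 0 := (_root_.map_ne_zero _).2 hc₀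
  have hlim0 : Tendsto (fun j : ℕ => 1 / ((j : ℝ) + 2)) atTop (𝓝 0) := by
    have h1 := tendsto_one_div_add_atTop_nhds_zero_nat (𝕜 := ℝ)
    have h2 := (tendsto_add_atTop_iff_nat 1).2 h1
    refine h2.congr ?_
    intro j
    push_cast
    congr 1
    ring
  have hτlim : Tendsto τ atTop (𝓝 A) := by
    rw [tendsto_pi_nhds]
    intro i
    rw [tendsto_iff_norm_sub_tendsto_zero]
    exact squeeze_zero (fun _ => norm_nonneg _) (fun j => (hτa j i).le) hlim0
  have hulim : Tendsto u atTop (𝓝 1) := by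
    rw [tendsto_iff_norm_sub_tendsto_zero]
    exact squeeze_zero (fun _ => norm_nonneg _) (fun j => (hu j).le) hlim0
  have hunorm : ∀ j, 1 / 2 ≤ ‖u j‖ := by
    intro j
    have h1 : (1 : ℝ) / ((j : ℝ) + 2) ≤ 1 / 2 := by
      apply one_div_le_one_div_of_le <;> [norm_num; (have : (0:ℝ) ≤ j := Nat.cast_nonneg j; linarith)]
    have h2 := hu j
    have h3 : ‖(1 : ℚ_[p])‖ ≤ ‖u j‖ + ‖u j - 1‖ := by
      have : (1 : ℚ_[p]) = u j - (u j - 1) := by ring
      calc ‖(1 : ℚ_[p])‖ = ‖u j - (u j - 1)‖ := by rw [← this]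
        _ ≤ _ := norm_sub_le _ _
    rw [norm_one] at h3
    linarith
  -- the points
  set y : ℕ → ℚ_[p] := fun j => w j * z j with hy
  set X : ℕ → ℚ_[p] := fun j => algebraMap ℚ ℚ_[p] b + c * u j * y j ^ l with hX
  have hroot : ∀ j, FV f (τ j) (X j) = 0 := by
    intro j
    have h1 := hzz j
    rw [FV_eq, hR j] at h1
    have h2 : algebraMap ℚ ℚ_[p] b + c * u j * w j ^ l * z j ^ l = X j := by
      simp only [hX, hy]
      ring
    rw [h2] at h1
    exact h1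
  -- bounded coefficients
  obtain ⟨M, hM1, hM⟩ : ∃ M : ℝ, 1 ≤ M ∧ ∀ j,
      ∑ i ∈ Finset.range f.natDegree, ‖MvPolynomial.aeval (τ j) (f.coeff i)‖ ≤ M := by
    have h1 : Tendsto (fun j => ∑ i ∈ Finset.range f.natDegree,
        ‖MvPolynomial.aeval (τ j) (f.coeff i)‖) atTop
        (𝓝 (∑ i ∈ Finset.range f.natDegree, ‖MvPolynomial.aeval A (f.coeff i)‖)) := by
      apply tendsto_finset_sum
      intro i _
      exact (((aeval_cont (f.coeff i)).tendsto A).comp hτlim).norm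
    obtain ⟨M, hM⟩ := h1.bddAbove_range
    refine ⟨max 1 M, le_max_left _ _, fun j => ?_⟩
    exact (hM ⟨j, rfl⟩).trans (le_max_right _ _)
  have hXb : ∀ j, ‖X j‖ ≤ M := fun j => root_bound f hf (τ j) (X j) (hroot j) M (hM j) hM1
  set B : ℝ := 2 * (M + ‖algebraMap ℚ ℚ_[p] b‖) / ‖c‖ with hB
  have hyb : ∀ j, ‖y j‖ ≤ max 1 B := by
    intro j
    have h1 : c * u j * y j ^ l = X j - algebraMap ℚ ℚ_[p] b := by
      simp only [hX]
      ring
    have h2 : ‖c‖ * ‖u j‖ * ‖y j‖ ^ l ≤ M + ‖algebraMap ℚ ℚ_[p] b‖ := by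
      rw [← norm_pow, ← norm_mul, ← norm_mul, h1]
      exact (norm_sub_le _ _).trans (add_le_add (hXb j) le_rfl)
    have hcp : 0 < ‖c‖ := norm_pos_iff.2 hc0
    have h3 : ‖y j‖ ^ l ≤ B := by
      rw [hB, le_div_iff₀ hcp]
      have h4 : ‖c‖ * (1 / 2) * ‖y j‖ ^ l ≤ ‖c‖ * ‖u j‖ * ‖y j‖ ^ l := by
        apply mul_le_mul_of_nonneg_right _ (by positivity)
        exact mul_le_mul_of_nonneg_left (hunorm j) hcp.le
      nlinarith
    rcases le_or_gt ‖y j‖ 1 with h5 | h5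
    · exact h5.trans (le_max_left _ _)
    · refine le_trans ?_ (h3.trans (le_max_right _ _))
      exact le_self_pow₀ h5.le (by omega)
  obtain ⟨y₀, _, φ, hφ, hφlim⟩ := (isCompact_closedBall (0 : ℚ_[p]) (max 1 B)).tendsto_subseq
    (x := y) (fun j => by simpa using hyb j)
  have hfin : Tendsto (fun j => FV f (τ (φ j)) (X (φ j))) atTop
      (𝓝 (FV f A (algebraMap ℚ ℚ_[p] b + c * 1 * y₀ ^ l))) := by
    have h1 : Tendsto (fun j => (τ (φ j), X (φ j))) atTop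
        (𝓝 (A, algebraMap ℚ ℚ_[p] b + c * 1 * y₀ ^ l)) := by
      apply (hτlim.comp hφ.tendsto_atTop).prodMk_nhds
      apply Tendsto.const_add
      apply Tendsto.mul
      · exact (hulim.comp hφ.tendsto_atTop).const_mul c
      · exact hφlim.pow l
    exact FV_tendsto f _ _ _ _ h1
  have hzero : FV f A (algebraMap ℚ ℚ_[p] b + c * 1 * y₀ ^ l) = 0 := by
    refine tendsto_nhds_unique hfin ?_
    simp only [hroot]
    exact tendsto_const_nhds
  apply hz y₀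
  rw [mul_one] at hzero
  rw [map_hom_eq a, FV_eq]
  exact hzero

end Pool.Agent.Zk78.FG
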