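import Pool.Agent.Zk12.FG.Stm
import Pool.Agent.Zk78.FG.App2Core

/-!
# Project FG, part O2
-/

set_option autoImplicit false

namespace Pool.Agent.Zk78.FG

theorem app2 : Pool.Agent.Zk12.FG.S_APP2 := by
  intro n f hf a b l hl _ P Q hP hQ
  exact app2_core f hf a b l hl P Q hP hQ

end Pool.Agent.Zk78.FG
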